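import Mathlib

/-!
# MP_af59ae_nt: residues of an integer modulo its totient
-/

namespace Pool.Agent.Results.MP_af59ae_nt.AttainedFamilies

open Nat

/-- `n` is the residue of some `x ≥ 1` modulo `φ x`. -/
def Attained (n : ℕ) : Prop := ∃ x : ℕ, 1 ≤ x ∧ x % Nat.totient x = n

theorem core {x k n : ℕ} (hx : 1 ≤ x) (h : x = k * Nat.totient x + n) (hn : n < Nat.totient x) :
    Attained n := by
  refine ⟨x, hx, ?_⟩
  have h1 : x % Nat.totient x = (k * Nat.totient x + n) % Nat.totient x :=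
    congrArg (fun z => z % Nat.totient x) h
  rw [h1, Nat.mul_add_mod_self_right, Nat.mod_eq_of_lt hn]

theorem k1 {m c : ℕ} (hm : 1 ≤ m) (h : m = Nat.totient m + c) (hc : c < Nat.totient m) :
    Attained c :=
  core (k := 1) hm (by rw [one_mul]; exact h) hc

theorem k2 {a m c : ℕ} (hm : Nat.Coprime m 2) (h : m = Nat.totient m + c)
    (hc : 2 * c < Nat.totient m) : Attained (2 ^ (a + 1) * c) := by
  have hm0 : 0 < m := by omega
  have hcop : Nat.Coprime (2 ^ (a + 1)) m := Nat.Coprime.pow_left _ hm.symm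
  have hphi : Nat.totient (2 ^ (a + 1) * m) = 2 ^ a * Nat.totient m := by
    rw [Nat.totient_mul hcop, Nat.totient_prime_pow_succ Nat.prime_two]
    ring
  apply core (x := 2 ^ (a + 1) * m) (k := 2)
  · exact Nat.mul_pos (by positivity) hm0
  · rw [hphi]
    calc 2 ^ (a + 1) * m = 2 ^ (a + 1) * (Nat.totient m + c) := by rw [← h]
      _ = 2 * (2 ^ a * Nat.totient m) + 2 ^ (a + 1) * c := by ring
  · rw [hphi]
    calc 2 ^ (a + 1) * c = 2 ^ a * (2 * c) := by ring
      _ < 2 ^ a * Nat.totient m := Nat.mul_lt_mul_of_pos_left hc (by positivity)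

theorem k3 {a b m c : ℕ} (hm : Nat.Coprime m 6) (h : m = Nat.totient m + c)
    (hc : 3 * c < Nat.totient m) : Attained (2 ^ (a + 1) * 3 ^ (b + 1) * c) := by
  have hm0 : 0 < m := by omega
  have hm2 : Nat.Coprime m 2 := Nat.Coprime.coprime_dvd_right (by norm_num) hm
  have hm3 : Nat.Coprime m 3 := Nat.Coprime.coprime_dvd_right (by norm_num) hm
  have hcop1 : Nat.Coprime (2 ^ (a + 1)) (3 ^ (b + 1)) :=
    Nat.Coprime.pow _ _ (by norm_num)
  have hcop2 : Nat.Coprime (2 ^ (a + 1) * 3 ^ (b + 1)) m :=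
    Nat.Coprime.mul_left (Nat.Coprime.pow_left _ hm2.symm) (Nat.Coprime.pow_left _ hm3.symm)
  have hphi : Nat.totient (2 ^ (a + 1) * 3 ^ (b + 1) * m) = 2 ^ (a + 1) * 3 ^ b * Nat.totient m := by
    rw [Nat.totient_mul hcop2, Nat.totient_mul hcop1, Nat.totient_prime_pow_succ Nat.prime_two,
      Nat.totient_prime_pow_succ Nat.prime_three]
    ring
  apply core (x := 2 ^ (a + 1) * 3 ^ (b + 1) * m) (k := 3)
  · exact Nat.mul_pos (by positivity) hm0
  · rw [hphi]
    calc 2 ^ (a + 1) * 3 ^ (b + 1) * m = 2 ^ (a + 1) * 3 ^ (b + 1) * (Nat.totient m + c) := by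
          rw [← h]
      _ = 3 * (2 ^ (a + 1) * 3 ^ b * Nat.totient m) + 2 ^ (a + 1) * 3 ^ (b + 1) * c := by ring
  · rw [hphi]
    calc 2 ^ (a + 1) * 3 ^ (b + 1) * c = 2 ^ (a + 1) * 3 ^ b * (3 * c) := by ring
      _ < 2 ^ (a + 1) * 3 ^ b * Nat.totient m := Nat.mul_lt_mul_of_pos_left hc (by positivity)

/-- All three cases at once. -/
theorem all {a b m c : ℕ} (hab : 0 < a ∨ b = 0) (hm : Nat.Coprime m 6)
    (h : m = Nat.totient m + c) (hc : 3 * c < Nat.totient m) : Attained (2 ^ a * 3 ^ b * c) := by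
  have hm2 : Nat.Coprime m 2 := Nat.Coprime.coprime_dvd_right (by norm_num) hm
  rcases Nat.eq_zero_or_pos b with hb | hb
  · subst hb
    rcases Nat.eq_zero_or_pos a with ha | ha
    · subst ha
      have := k1 (m := m) (c := c) (by omega) h (by omega)
      simpa using this
    · obtain ⟨a', rfl⟩ : ∃ a', a = a' + 1 := ⟨a - 1, by omega⟩
      have := k2 (a := a') hm2 h (by omega)
      simpa using this
  · have ha : 0 < a := by
      rcases hab with h1 | h1
      · exact h1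
      · omega
    obtain ⟨a', rfl⟩ : ∃ a', a = a' + 1 := ⟨a - 1, by omega⟩
    obtain ⟨b', rfl⟩ : ∃ b', b = b' + 1 := ⟨b - 1, by omega⟩
    exact k3 hm h hc

theorem coprime6 {p : ℕ} (hp : p.Prime) (h5 : 5 ≤ p) : Nat.Coprime p 6 := by
  have h2 : Nat.Coprime p 2 := (Nat.coprime_primes hp Nat.prime_two).2 (by omega)
  have h3 : Nat.Coprime p 3 := (Nat.coprime_primes hp Nat.prime_three).2 (by omega)
  have : Nat.Coprime p (2 * 3) := Nat.Coprime.mul_right h2 h3
  simpa using this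

theorem primePow {a b i p : ℕ} (hab : 0 < a ∨ b = 0) (hp : p.Prime) (h5 : 5 ≤ p) :
    Attained (2 ^ a * 3 ^ b * p ^ i) := by
  obtain ⟨r, rfl⟩ : ∃ r, p = r + 5 := ⟨p - 5, by omega⟩
  have hphi : Nat.totient ((r + 5) ^ (i + 1)) = (r + 5) ^ i * (r + 4) := by
    rw [Nat.totient_prime_pow_succ hp]
    rfl
  apply all (m := (r + 5) ^ (i + 1)) hab
  · exact Nat.Coprime.pow_left _ (coprime6 hp h5)
  · rw [hphi]
    ring
  · rw [hphi]
    have hpos : 0 < (r + 5) ^ i := by positivity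
    nlinarith

theorem twoPrimes {a b i j p q : ℕ} (hab : 0 < a ∨ b = 0) (hp : p.Prime) (hq : q.Prime)
    (h5 : 5 ≤ p) (hpq : p < q) (h : 12 < (p - 4) * (q - 4)) :
    Attained (2 ^ a * 3 ^ b * (p ^ i * q ^ j * (p + q - 1))) := by
  have hcop : Nat.Coprime (p ^ (i + 1)) (q ^ (j + 1)) :=
    Nat.Coprime.pow _ _ ((Nat.coprime_primes hp hq).2 hpq.ne)
  obtain ⟨r, rfl⟩ : ∃ r, p = r + 5 := ⟨p - 5, by omega⟩
  obtain ⟨t, rfl⟩ : ∃ t, q = t + 5 := ⟨q - 5, by omega⟩
  have hphi : Nat.totient ((r + 5) ^ (i + 1) * (t + 5) ^ (j + 1))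
      = (r + 5) ^ i * (t + 5) ^ j * ((r + 4) * (t + 4)) := by
    rw [Nat.totient_mul hcop, Nat.totient_prime_pow_succ hp, Nat.totient_prime_pow_succ hq]
    have h1 : r + 5 - 1 = r + 4 := rfl
    have h2 : t + 5 - 1 = t + 4 := rfl
    rw [h1, h2]
    ring
  have h3 : r + 5 + (t + 5) - 1 = r + t + 9 := by omega
  have h4 : r + 5 - 4 = r + 1 := by omega
  have h5' : t + 5 - 4 = t + 1 := by omega
  rw [h3]
  rw [h4, h5'] at h
  apply all (m := (r + 5) ^ (i + 1) * (t + 5) ^ (j + 1)) hab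
  · exact Nat.Coprime.mul_left (Nat.Coprime.pow_left _ (coprime6 hp h5))
      (Nat.Coprime.pow_left _ (coprime6 hq (by omega)))
  · rw [hphi]
    ring
  · rw [hphi]
    have hpos : 0 < (r + 5) ^ i * (t + 5) ^ j := by positivity
    have h6 : 3 * (r + t + 9) < (r + 4) * (t + 4) := by nlinarith
    calc 3 * ((r + 5) ^ i * (t + 5) ^ j * (r + t + 9))
        = (r + 5) ^ i * (t + 5) ^ j * (3 * (r + t + 9)) := by ring
      _ < (r + 5) ^ i * (t + 5) ^ j * ((r + 4) * (t + 4)) := Nat.mul_lt_mul_of_pos_left h6 hpos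

theorem phi2 {i j r t : ℕ} (hp : (r + 3).Prime) (hq : (t + 3).Prime) (hne : r ≠ t) :
    Nat.totient ((r + 3) ^ (i + 1) * (t + 3) ^ (j + 1))
      = (r + 3) ^ i * (t + 3) ^ j * ((r + 2) * (t + 2)) := by
  have hcop : Nat.Coprime ((r + 3) ^ (i + 1)) ((t + 3) ^ (j + 1)) :=
    Nat.Coprime.pow _ _ ((Nat.coprime_primes hp hq).2 (by omega))
  rw [Nat.totient_mul hcop, Nat.totient_prime_pow_succ hp, Nat.totient_prime_pow_succ hq]
  have h1 : r + 3 - 1 = r + 2 := rfl
  have h2 : t + 3 - 1 = t + 2 := rfl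
  rw [h1, h2]
  ring

/-- Odd case: two distinct odd primes. -/
theorem twoOdd {i j p q : ℕ} (hp : p.Prime) (hq : q.Prime) (h3 : 3 ≤ p) (hpq : p < q) :
    Attained (p ^ i * q ^ j * (p + q - 1)) := by
  have h5 : 5 ≤ q := by
    by_contra hcon
    have h4 : q = 4 := by omega
    rw [h4] at hq
    exact absurd hq (by norm_num)
  obtain ⟨r, rfl⟩ : ∃ r, p = r + 3 := ⟨p - 3, by omega⟩
  obtain ⟨t, rfl⟩ : ∃ t, q = t + 3 := ⟨q - 3, by omega⟩
  have hphi := phi2 (i := i) (j := j) hp hq (by omega)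
  have h6 : r + 3 + (t + 3) - 1 = r + t + 5 := by omega
  rw [h6]
  apply k1 (m := (r + 3) ^ (i + 1) * (t + 3) ^ (j + 1))
  · exact Nat.mul_pos (by positivity) (by positivity)
  · rw [hphi]
    ring
  · rw [hphi]
    have hpos : 0 < (r + 3) ^ i * (t + 3) ^ j := by positivity
    have h7 : r + t + 5 < (r + 2) * (t + 2) := by nlinarith
    exact Nat.mul_lt_mul_of_pos_left h7 hpos

/-- Even case: two distinct primes at least five. -/
theorem twoEven {a i j p q : ℕ} (hp : p.Prime) (hq : q.Prime) (h5 : 5 ≤ p) (hpq : p < q) :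
    Attained (2 ^ (a + 1) * (p ^ i * q ^ j * (p + q - 1))) := by
  have h7 : 7 ≤ q := by
    by_contra hcon
    have h6 : q = 6 := by omega
    rw [h6] at hq
    exact absurd hq (by norm_num)
  have hc2 : Nat.Coprime (p ^ (i + 1) * q ^ (j + 1)) 2 :=
    Nat.Coprime.mul_left
      (Nat.Coprime.pow_left _ ((Nat.coprime_primes hp Nat.prime_two).2 (by omega)))
      (Nat.Coprime.pow_left _ ((Nat.coprime_primes hq Nat.prime_two).2 (by omega)))
  obtain ⟨r, rfl⟩ : ∃ r, p = r + 3 := ⟨p - 3, by omega⟩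
  obtain ⟨t, rfl⟩ : ∃ t, q = t + 3 := ⟨q - 3, by omega⟩
  have hphi := phi2 (i := i) (j := j) hp hq (by omega)
  have h6 : r + 3 + (t + 3) - 1 = r + t + 5 := by omega
  rw [h6]
  apply k2 (m := (r + 3) ^ (i + 1) * (t + 3) ^ (j + 1)) hc2
  · rw [hphi]
    ring
  · rw [hphi]
    have hpos : 0 < (r + 3) ^ i * (t + 3) ^ j := by positivity
    have h8 : 2 * (r + t + 5) < (r + 2) * (t + 2) := by nlinarith
    calc 2 * ((r + 3) ^ i * (t + 3) ^ j * (r + t + 5))
        = (r + 3) ^ i * (t + 3) ^ j * (2 * (r + t + 5)) := by ring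
      _ < (r + 3) ^ i * (t + 3) ^ j * ((r + 2) * (t + 2)) := Nat.mul_lt_mul_of_pos_left h8 hpos

theorem phi_closure {x : ℕ} : ∀ y : ℕ, 1 ≤ y → (∀ p, p.Prime → p ∣ y → p ∣ x) →
    Nat.totient (y * x) = y * Nat.totient x := by
  intro y
  induction y using Nat.strong_induction_on with
  | _ y ih =>
    intro hy h
    rcases Nat.lt_or_ge 1 y with h1 | h1
    · have hp : (Nat.minFac y).Prime := Nat.minFac_prime (by omega)
      obtain ⟨z, hz⟩ := Nat.minFac_dvd y
      have hz0 : 0 < z := Nat.pos_of_ne_zero fun h0 => by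
        rw [h0, mul_zero] at hz
        omega
      have hzlt : z < y := by
        have := hp.two_le
        nlinarith
      have hdvd : Nat.minFac y ∣ x := h _ hp (Nat.minFac_dvd y)
      have hih := ih z hzlt hz0 (fun p hp' hpz => h p hp' (hz ▸ (Dvd.dvd.mul_left hpz _)))
      have heq : y * x = Nat.minFac y * (z * x) := by
        rw [← mul_assoc, ← hz]
      rw [heq, Nat.totient_mul_of_prime_of_dvd hp (Dvd.dvd.mul_left hdvd z), hih, ← mul_assoc, ← hz]
    · have h2 : y = 1 := by omega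
      rw [h2, one_mul, one_mul]

/-- Multiplying by integers composed of the primes of the witness. -/
theorem closure {x y : ℕ} (hx : 1 ≤ x) (hy : 1 ≤ y) (h : ∀ p, p.Prime → p ∣ y → p ∣ x) :
    Attained (y * (x % Nat.totient x)) := by
  refine ⟨y * x, Nat.mul_pos hy hx, ?_⟩
  rw [phi_closure y hy h, Nat.mul_mod_mul_left]

/-- Main result. -/
theorem result :
    (∀ a b i p : ℕ, (0 < a ∨ b = 0) → p.Prime → 5 ≤ p → Attained (2 ^ a * 3 ^ b * p ^ i)) ∧
    (∀ i j p q : ℕ, p.Prime → q.Prime → 3 ≤ p → p < q →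
      Attained (p ^ i * q ^ j * (p + q - 1))) ∧
    (∀ a i j p q : ℕ, p.Prime → q.Prime → 5 ≤ p → p < q →
      Attained (2 ^ (a + 1) * (p ^ i * q ^ j * (p + q - 1)))) ∧
    (∀ a b i j p q : ℕ, (0 < a ∨ b = 0) → p.Prime → q.Prime → 5 ≤ p → p < q →
      12 < (p - 4) * (q - 4) → Attained (2 ^ a * 3 ^ b * (p ^ i * q ^ j * (p + q - 1)))) ∧
    (∀ a b m : ℕ, (0 < a ∨ b = 0) → Nat.Coprime m 6 → 3 * (m - Nat.totient m) < Nat.totient m →
      Attained (2 ^ a * 3 ^ b * (m - Nat.totient m))) ∧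
    (∀ x y : ℕ, 1 ≤ x → 1 ≤ y → (∀ p, p.Prime → p ∣ y → p ∣ x) →
      Attained (y * (x % Nat.totient x))) := by
  refine ⟨fun a b i p hab hp h5 => primePow hab hp h5,
    fun i j p q hp hq h3 hpq => twoOdd hp hq h3 hpq,
    fun a i j p q hp hq h5 hpq => twoEven hp hq h5 hpq,
    fun a b i j p q hab hp hq h5 hpq h => twoPrimes hab hp hq h5 hpq h, ?_,
    fun x y hx hy h => closure hx hy h⟩
  intro a b m hab hm hc
  have hle : Nat.totient m ≤ m := Nat.totient_le m
  exact all hab hm (by omega) hc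

end Pool.Agent.Results.MP_af59ae_nt.AttainedFamilies
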